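import Pool.Agent.Lib.MP_4fbe7c_an.UL.Iface
import Pool.Agent.Lib.MP_4fbe7c_an.SD.Calc

/-!
STE: the equation of the steady state, tested with `U / θ`.
-/

set_option autoImplicit false

open Set

namespace Pool.Agent.Lib.MP_4fbe7c_an.UL.H41

open Pool.Agent.Lib.MP_4fbe7c_an.SD

theorem ste : SteStatement := by
  intro L d m θ θ' θ'' U U' hL hd hm hθ hU hU'
  have hne : ∀ x ∈ Icc 0 L, θ x ≠ 0 := fun x hx => (hθ.pos x hx).ne'
  have cθ : ContinuousOn θ (Icc 0 L) := hθ.d1.continuousOn
  have cθ' : ContinuousOn θ' (Icc 0 L) := hθ.d2.continuousOn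
  have cU : ContinuousOn U (Icc 0 L) := hU.continuousOn
  have cθ'' : ContinuousOn θ'' (Icc 0 L) := by
    have h1 : ContinuousOn (fun x => -(θ x * (m x - θ x)) / d) (Icc 0 L) :=
      ((cθ.mul (hm.sub cθ)).neg).div_const d
    refine h1.congr fun x hx => ?_
    have := hθ.eq x hx
    rw [eq_div_iff hd.ne']
    linarith
  -- the function F
  have hF : DerivOn L (fun x => (U x / θ x - 1) * θ' x)
      (fun x => ((U' x * θ x - U x * θ' x) / θ x ^ 2) * θ' x + (U x / θ x - 1) * θ'' x) := by
    intro x hx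
    have h1 := ((hU x hx).div (hθ.d1 x hx) (hne x hx)).sub_const 1
    exact h1.mul (hθ.d2 x hx)
  have cF : ContinuousOn (fun x => ((U' x * θ x - U x * θ' x) / θ x ^ 2) * θ' x
      + (U x / θ x - 1) * θ'' x) (Icc 0 L) := by
    refine ContinuousOn.add (ContinuousOn.mul (ContinuousOn.div ?_ (cθ.pow 2) ?_) cθ')
      (ContinuousOn.mul ?_ cθ'')
    · exact (hU'.mul cθ).sub (cU.mul cθ')
    · intro x hx
      exact pow_ne_zero 2 (hne x hx)
    · exact (cU.div cθ hne).sub continuousOn_const
  have h0 := integral_deriv hL hF cF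
  simp only [hθ.b0, hθ.bL, mul_zero, sub_zero] at h0
  have cA : ContinuousOn (fun x => (U x - θ x) * (m x - θ x)) (Icc 0 L) :=
    (cU.sub cθ).mul (hm.sub cθ)
  have cB : ContinuousOn (fun x => θ' x / θ x * (U' x - U x * (θ' x / θ x))) (Icc 0 L) :=
    (cθ'.div cθ hne).mul (hU'.sub (cU.mul (cθ'.div cθ hne)))
  have iA : IntervalIntegrable (fun x => (U x - θ x) * (m x - θ x)) MeasureTheory.volume 0 L :=
    (cA.mono (by rw [uIcc_of_le hL.le])).intervalIntegrable
  have iB : IntervalIntegrable (fun x => d * (θ' x / θ x * (U' x - U x * (θ' x / θ x))))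
      MeasureTheory.volume 0 L :=
    ((continuousOn_const.mul cB).mono (by rw [uIcc_of_le hL.le])).intervalIntegrable
  have hsub : (∫ x in (0)..L, (U x - θ x) * (m x - θ x))
      - ∫ x in (0)..L, d * (θ' x / θ x * (U' x - U x * (θ' x / θ x))) = 0 := by
    rw [← intervalIntegral.integral_sub iA iB]
    have : (∫ x in (0)..L, ((U x - θ x) * (m x - θ x)
        - d * (θ' x / θ x * (U' x - U x * (θ' x / θ x)))))
        = ∫ x in (0)..L, (-d) * (((U' x * θ x - U x * θ' x) / θ x ^ 2) * θ' x
      + (U x / θ x - 1) * θ'' x) := by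
      refine intervalIntegral.integral_congr fun x hx => ?_
      rw [uIcc_of_le hL.le] at hx
      have hx0 := hne x hx
      have he := hθ.eq x hx
      have he' : m x - θ x = -(d * θ'' x) / θ x := by
        rw [eq_div_iff hx0]
        linarith
      simp only [he']
      field_simp
      ring
    rw [this, intervalIntegral.integral_const_mul, h0, mul_zero]
  rw [← intervalIntegral.integral_const_mul]
  linarith

end Pool.Agent.Lib.MP_4fbe7c_an.UL.H41
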